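import Mathlib

namespace Pool.Agent.Results.MP_337eac_co.Monotone

open SimpleGraph Equiv

/-- A class of finite graphs, given by its members on the vertex sets `Fin n`. -/
abbrev GraphClass := (n : ℕ) → SimpleGraph (Fin n) → Prop

/-- Monotone class: every graph isomorphic to a subgraph of a member is a member (this includes
closure under isomorphism and under induced subgraphs). -/
def IsMonotone (C : GraphClass) : Prop :=
  ∀ (n m : ℕ) (G : SimpleGraph (Fin n)) (H : SimpleGraph (Fin m)),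
    C n G → (∃ f : H →g G, Function.Injective f) → C m H

/-- The speed: the number of labelled members on `n` vertices. -/
noncomputable def speed (C : GraphClass) (n : ℕ) : ℕ := {G : SimpleGraph (Fin n) | C n G}.ncard

/-- MC-finite integer sequences. -/
def MCFinite (s : ℕ → ℤ) : Prop :=
  ∀ m : ℕ, 1 ≤ m → ∃ r p : ℕ, 1 ≤ r ∧ 1 ≤ p ∧ ∃ α : Fin p → ℤ, ∀ n, r ≤ n →
    s (n + p) ≡ ∑ i : Fin p, α i * s (n + i) [ZMOD m]

/-! ### Blow-ups of odd cycles -/

def kk (j : ℕ) : ℕ := 2 * j + 3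
abbrev V (j : ℕ) := Σ i : Fin (kk j), Fin (2 ^ i.1)
def N (j : ℕ) : ℕ := ∑ i ∈ Finset.range (kk j), 2 ^ i

lemma card_V (j : ℕ) : Fintype.card (V j) = N j := by
  simp [V, N, Finset.sum_range]

noncomputable def e (j : ℕ) : Fin (N j) ≃ V j := (Fintype.equivFinOfCardEq (card_V j)).symm
noncomputable def f (j : ℕ) (u : Fin (N j)) : Fin (kk j) := (e j u).1
noncomputable def z (j : ℕ) (u : Fin (N j)) : ZMod (kk j) := ((f j u).1 : ℕ)

lemma one_ne (j : ℕ) : (1 : ZMod (kk j)) ≠ 0 := by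
  haveI : Fact (1 < kk j) := ⟨by unfold kk; omega⟩
  exact one_ne_zero

noncomputable def X (j : ℕ) : SimpleGraph (Fin (N j)) where
  Adj u v := z j u + 1 = z j v ∨ z j v + 1 = z j u
  symm := ⟨fun u v h => h.symm⟩
  loopless := ⟨fun u h => one_ne j (by simpa using h)⟩

lemma z_surj (j : ℕ) (a : ZMod (kk j)) : ∃ u, z j u = a := by
  haveI : NeZero (kk j) := ⟨by unfold kk; omega⟩
  refine ⟨(e j).symm ⟨⟨a.val, a.val_lt⟩, ⟨0, by positivity⟩⟩, ?_⟩
  simp [z, f]

lemma N_mono : StrictMono N := by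
  apply strictMono_nat_of_lt_succ
  intro j
  have : kk (j + 1) = kk j + 1 + 1 := by unfold kk; ring
  rw [N, N, this, Finset.sum_range_succ, Finset.sum_range_succ]
  have : 0 < 2 ^ kk j := by positivity
  omega

lemma hom_le {i j : ℕ} (φ : X i →g X j) : j ≤ i := by
  choose s hs using z_surj i
  let g : ℕ → ZMod (kk j) := fun t => z j (φ (s (t : ℕ)))
  have step : ∀ t, g t + 1 = g (t + 1) ∨ g (t + 1) + 1 = g t := by
    intro t
    have : (X i).Adj (s (t : ℕ)) (s ((t + 1 : ℕ))) := Or.inl (by rw [hs, hs]; push_cast; rfl)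
    exact φ.map_rel this
  have key : ∀ t : ℕ, ∃ w : ℤ, -(t : ℤ) ≤ w ∧ w ≤ t ∧ (w + t) % 2 = 0 ∧ g t = g 0 + (w : ZMod (kk j)) := by
    intro t
    induction t with
    | zero => exact ⟨0, by simp⟩
    | succ t ih =>
      obtain ⟨w, h1, h2, h3, h4⟩ := ih
      rcases step t with h | h
      · refine ⟨w + 1, by push_cast; omega, by push_cast; omega, by push_cast; omega, ?_⟩
        rw [← h, h4]; push_cast; ring
      · refine ⟨w - 1, by push_cast; omega, by push_cast; omega, by push_cast; omega, ?_⟩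
        rw [eq_sub_of_add_eq h, h4]; push_cast; ring
  obtain ⟨w, h1, h2, h3, h4⟩ := key (kk i)
  have e0 : g (kk i) = g 0 := by simp [g]
  rw [e0, left_eq_add, ZMod.intCast_zmod_eq_zero_iff_dvd] at h4
  have hw : w ≠ 0 := by unfold kk at h3; push_cast at h3; omega
  have := Int.le_of_dvd (abs_pos.2 hw) ((dvd_abs _ _).2 h4)
  have h5 : |w| ≤ kk i := abs_le.2 ⟨h1, h2⟩
  have : (kk j : ℤ) ≤ kk i := this.trans h5
  unfold kk at this
  omega

def Sub {n m : ℕ} (H : SimpleGraph (Fin m)) (G : SimpleGraph (Fin n)) : Prop :=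
  ∃ f : H →g G, Function.Injective f

lemma Sub.trans {n m l : ℕ} {A : SimpleGraph (Fin n)} {B : SimpleGraph (Fin m)}
    {C : SimpleGraph (Fin l)} (h : Sub A B) (h' : Sub B C) : Sub A C := by
  obtain ⟨f, hf⟩ := h
  obtain ⟨g, hg⟩ := h'
  exact ⟨g.comp f, hg.comp hf⟩

lemma Sub.le {n m : ℕ} {A : SimpleGraph (Fin n)} {B : SimpleGraph (Fin m)} (h : Sub A B) :
    n ≤ m := by
  obtain ⟨f, hf⟩ := h
  simpa using Fintype.card_le_of_injective _ hf

lemma sub_eq {i j : ℕ} (h : Sub (X i) (X j)) : i = j :=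
  le_antisymm (N_mono.le_iff_le.1 h.le) (hom_le h.choose)

def CS (S : Set ℕ) : GraphClass := fun _ G => (∃ j, Sub G (X j)) ∧ ∀ j, j ∉ S → ¬ Sub (X j) G

lemma CS_mono (S : Set ℕ) : IsMonotone (CS S) := by
  rintro n m G H ⟨⟨j, h1⟩, h2⟩ h
  exact ⟨⟨j, Sub.trans h h1⟩, fun k hk h' => h2 k hk (Sub.trans h' h)⟩

/-! ### The number of labelled copies is odd -/

instance act (n : ℕ) : MulAction (Perm (Fin n)) (SimpleGraph (Fin n)) where
  smul σ G := G.comap σ.symm
  one_smul G := by ext; rfl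
  mul_smul σ τ G := by ext; rfl

lemma smul_adj {n : ℕ} (σ : Perm (Fin n)) (G : SimpleGraph (Fin n)) (u v : Fin n) :
    (σ • G).Adj u v ↔ G.Adj (σ.symm u) (σ.symm v) := Iff.rfl

def pairs {n : ℕ} (G : SimpleGraph (Fin n)) : Set (Fin n × Fin n) := {p | G.Adj p.1 p.2}

lemma pairs_le {n : ℕ} {A B : SimpleGraph (Fin n)} (h : Sub A B) :
    (pairs A).ncard ≤ (pairs B).ncard := by
  obtain ⟨f, hf⟩ := h
  exact Set.ncard_le_ncard_of_injOn (Prod.map f f) (fun p hp => f.map_rel hp)
    (hf.prodMap hf).injOn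

lemma mem_orbit {n : ℕ} (A G : SimpleGraph (Fin n)) :
    G ∈ MulAction.orbit (Perm (Fin n)) A ↔ Sub A G ∧ Sub G A := by
  constructor
  · rintro ⟨σ, rfl⟩
    exact ⟨⟨⟨σ, fun {u v} h => by simpa [smul_adj] using h⟩, σ.injective⟩,
      ⟨⟨σ.symm, fun {u v} h => h⟩, σ.symm.injective⟩⟩
  · rintro ⟨⟨φ, hφ⟩, h2⟩
    let σ : Perm (Fin n) := Equiv.ofBijective φ (Finite.injective_iff_bijective.1 hφ)
    refine ⟨σ, ?_⟩
    have hs : pairs (σ • A) ⊆ pairs G := by
      intro p hp
      have := φ.map_rel (show A.Adj (σ.symm p.1) (σ.symm p.2) from hp)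
      have e1 : ∀ u, φ (σ.symm u) = u := fun u => σ.apply_symm_apply u
      rw [e1, e1] at this
      exact this
    have h3 : Sub A (σ • A) := ⟨⟨σ, fun {u v} h => by simpa [smul_adj] using h⟩, σ.injective⟩
    have := Set.eq_of_subset_of_ncard_le hs ((pairs_le h2).trans (pairs_le h3))
    ext u v
    exact Set.ext_iff.1 this (u, v)

lemma choose_odd (k m : ℕ) (h : m < 2 ^ k) : Odd ((2 ^ k - 1).choose m) := by
  induction m with
  | zero => simp
  | succ m ih =>
    have h1 := ih (by omega)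
    have h2 : 2 ∣ (2 ^ k).choose (m + 1) := Nat.prime_two.dvd_choose_pow (by omega) (by omega)
    have h3 : (2 ^ k).choose (m + 1) = (2 ^ k - 1).choose m + (2 ^ k - 1).choose (m + 1) := by
      rw [← Nat.choose_succ_succ]; congr 1; omega
    rw [Nat.odd_iff] at *
    omega

lemma geom (k : ℕ) : ∑ i ∈ Finset.range k, 2 ^ i = 2 ^ k - 1 := by
  induction k with
  | zero => simp
  | succ k ih =>
    have : 0 < 2 ^ k := by positivity
    rw [Finset.sum_range_succ, ih, pow_succ]; omega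

lemma fact_odd (k : ℕ) : ∃ c, Odd c ∧ (∑ i ∈ Finset.range k, 2 ^ i).factorial =
    c * ∏ i ∈ Finset.range k, (2 ^ i).factorial := by
  induction k with
  | zero => exact ⟨1, by simp⟩
  | succ k ih =>
    obtain ⟨c, hc, h⟩ := ih
    have h0 : 0 < 2 ^ k := by positivity
    refine ⟨(2 ^ (k + 1) - 1).choose (2 ^ k) * c,
      (choose_odd _ _ (by rw [pow_succ]; omega)).mul hc, ?_⟩
    rw [← geom, Finset.sum_range_succ, Finset.prod_range_succ,
      ← Nat.add_choose_mul_factorial_mul_factorial, h]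
    ring

lemma fiber (j : ℕ) (i : Fin (kk j)) : Fintype.card {a // f j a = i} = 2 ^ i.1 := by
  have : {a // f j a = i} ≃ Fin (2 ^ i.1) :=
    ((e j).subtypeEquiv (q := fun v : V j => v.1 = i) (fun a => Iff.rfl)).trans
      (Equiv.sigmaSubtype i)
  simpa using Fintype.card_congr this

lemma orbit_odd (j : ℕ) : Odd (MulAction.orbit (Perm (Fin (N j))) (X j)).ncard := by
  classical
  let H : Subgroup (Perm (Fin (N j))) :=
    { carrier := {g | f j ∘ g = f j}
      mul_mem' := fun {a b} ha hb => by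
        show f j ∘ (a ∘ b) = f j
        rw [← Function.comp_assoc, ha, hb]
      one_mem' := rfl
      inv_mem' := fun {a} ha => by
        ext1 u
        have := congrFun ha (a⁻¹ u)
        simpa using this.symm }
  have hle : H ≤ MulAction.stabilizer (Perm (Fin (N j))) (X j) := by
    intro g hg
    have hg' : ∀ u, f j (g.symm u) = f j u := fun u => congrFun (H.inv_mem hg) u
    ext u v
    rw [smul_adj]
    simp only [X, z, hg']
  have hH : Nat.card H = ∏ i ∈ Finset.range (kk j), (2 ^ i).factorial := by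
    have := DomMulAct.stabilizer_card (f j)
    rw [← Nat.card_eq_fintype_card] at this
    rw [Finset.prod_range]
    simp only [fiber] at this
    exact this
  obtain ⟨c, hc, h⟩ := fact_odd (kk j)
  have h1 := H.card_mul_index
  rw [Nat.card_perm, Nat.card_fin, hH] at h1
  have h2 : H.index = c := by
    have hpos : 0 < ∏ i ∈ Finset.range (kk j), (2 ^ i).factorial :=
      Finset.prod_pos fun i _ => Nat.factorial_pos _
    apply Nat.eq_of_mul_eq_mul_left hpos
    rw [h1, mul_comm]; exact h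
  have h3 := Subgroup.index_dvd_of_le hle
  rw [h2, MulAction.index_stabilizer] at h3
  exact hc.of_dvd_nat h3

lemma speed_split (j : ℕ) (S T : Set ℕ) (hS : j ∈ S) (hT : j ∉ T) :
    speed (CS S) (N j) = speed (CS T) (N j) + (MulAction.orbit (Perm (Fin (N j))) (X j)).ncard := by
  have key : ∀ (G : SimpleGraph (Fin (N j))) (k l : ℕ), Sub (X k) G → Sub G (X l) →
      k = j ∧ l = j := by
    intro G k l h1 h2
    obtain rfl := sub_eq (h1.trans h2)
    have := le_antisymm (N_mono.le_iff_le.1 h1.le) (N_mono.le_iff_le.1 h2.le)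
    exact ⟨this, this⟩
  unfold speed
  rw [← Set.ncard_union_eq]
  · congr 1
    ext G
    simp only [Set.mem_union, mem_orbit, CS, Set.mem_ofPred_eq]
    constructor
    · rintro ⟨⟨l, hl⟩, -⟩
      by_cases h : Sub (X j) G
      · obtain ⟨-, rfl⟩ := key G j l h hl
        exact Or.inr ⟨h, hl⟩
      · refine Or.inl ⟨⟨l, hl⟩, fun k _ hk => ?_⟩
        obtain ⟨rfl, -⟩ := key G k l hk hl
        exact h hk
    · rintro (⟨⟨l, hl⟩, h⟩ | ⟨h1, h2⟩)
      · refine ⟨⟨l, hl⟩, fun k hk hk' => ?_⟩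
        obtain ⟨rfl, -⟩ := key G k l hk' hl
        exact hk hS
      · refine ⟨⟨j, h2⟩, fun k hk hk' => ?_⟩
        obtain ⟨rfl, -⟩ := key G k j hk' h2
        exact hk hS
  · rw [Set.disjoint_left]
    intro G h1 h2
    exact h1.2 j hT ((mem_orbit _ _).1 h2).1

noncomputable def par (S : Set ℕ) (n : ℕ) : ZMod 2 := ((speed (CS S) n : ℤ) : ZMod 2)

lemma par_ne (j : ℕ) (S T : Set ℕ) (hS : j ∈ S) (hT : j ∉ T) : par S ≠ par T := by
  intro h
  have h1 := congrFun h (N j)
  obtain ⟨c, hc⟩ := orbit_odd j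
  simp only [par, speed_split j S T hS hT, hc] at h1
  push_cast at h1
  have h2 : (2 : ZMod 2) = 0 := rfl
  rw [h2] at h1
  simp at h1

lemma par_inj : Function.Injective par := by
  intro S T h
  ext j
  constructor
  · intro hS; by_contra hT; exact par_ne j S T hS hT h
  · intro hT; by_contra hS; exact par_ne j T S hT hS h.symm

theorem result : ∃ C : GraphClass, IsMonotone C ∧ ¬ MCFinite fun n => (speed C n : ℤ) := by
  by_contra hcon
  push Not at hcon
  have h : ∀ S : Set ℕ, ∃ d : Σ r : ℕ, Σ p : ℕ, (Fin p → ℤ) × (Fin (r + p) → ZMod 2),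
      (∀ i, d.2.2.2 i = par S i.1) ∧ ∀ n, d.1 ≤ n →
        par S (n + d.2.1) = ∑ i : Fin d.2.1, (d.2.2.1 i : ZMod 2) * par S (n + i) := by
    intro S
    obtain ⟨r, p, -, -, α, hα⟩ := hcon (CS S) (CS_mono S) 2 (by norm_num)
    refine ⟨⟨r, p, α, fun i => par S i.1⟩, fun i => rfl, fun n hn => ?_⟩
    have := (ZMod.intCast_eq_intCast_iff _ _ 2).2 (hα n hn)
    simp only [par]
    rw [this]
    push_cast
    rfl
  choose d hd using h
  have hinj : Function.Injective d := by
    intro S T hST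
    apply par_inj
    obtain ⟨h1, h2⟩ := hd S
    obtain ⟨h3, h4⟩ := hd T
    rw [← hST] at h3 h4
    ext n
    induction n using Nat.strong_induction_on with
    | _ n ih =>
      rcases Nat.lt_or_ge n ((d S).1 + (d S).2.1) with hn | hn
      · exact (h1 ⟨n, hn⟩).symm.trans (h3 ⟨n, hn⟩)
      · obtain ⟨m, rfl⟩ : ∃ m, n = m + (d S).2.1 := ⟨n - (d S).2.1, by omega⟩
        rw [h2 m (by omega), h4 m (by omega)]
        exact Finset.sum_congr rfl fun i _ => by rw [ih _ (by have := i.2; omega)]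
  haveI : Countable (Set ℕ) := hinj.countable
  obtain ⟨g, hg⟩ := exists_surjective_nat (Set ℕ)
  exact Function.cantor_surjective g hg

end Pool.Agent.Results.MP_337eac_co.Monotone
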